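import Pool.Agent.N71.PS.Defs
import Pool.Agent.H38R2.CG.N0d

/-!
# PS/SHARP: for `10 ∣ d` the primes `± 1` modulo `5` do not generate the class group (helper368)
-/

set_option autoImplicit false

namespace Pool.Agent.N368.PS

open NumberField Module Pool.Agent.N71.PS
open Pool.Agent.H38R2.CG.N0dh (exists_basis int_coord nm parity2)

/-- the primes `1` and `4` modulo `5` -/
def P5 : Set ℕ := {p | p % 5 = 1 ∨ p % 5 = 4}

variable {K : Type} [Field K] [NumberField K]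

/-- the norms modulo `5` -/
theorem norm_mod {d : ℕ} (hd : Squarefree d) (h10 : 10 ∣ d) (h2 : finrank ℚ K = 2) {x : K}
    (hx : x ^ 2 = (d : K)) (α : 𝓞 K) : (Algebra.norm ℤ α).natAbs % 5 = 0 ∨
      (Algebra.norm ℤ α).natAbs % 5 = 1 ∨ (Algebra.norm ℤ α).natAbs % 5 = 4 := by
  have hd0 : d ≠ 0 := hd.ne_zero
  have hd1 : 1 < d := by omega
  have hd4 : d % 4 = 2 := by
    have h4 : ¬ 2 * 2 ∣ d := by
      intro h
      have := Nat.isUnit_iff.1 (hd 2 h)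
      omega
    omega
  obtain ⟨b, h0, h1⟩ := exists_basis hd1 hd h2 x hx
  obtain ⟨t, s, n, hα, hts⟩ := int_coord hx b h0 h1 hd α
  obtain ⟨a, c, rfl, rfl⟩ := parity2 (Or.inl hd4) hts
  have h3 : ((Algebra.norm ℤ α : ℤ) : ℚ) = ((a ^ 2 - d * c ^ 2 : ℤ) : ℚ) := by
    rw [Algebra.coe_norm_int, hα, nm hx b h0 h1]
    push_cast
    ring
  have h5 : Algebra.norm ℤ α = a ^ 2 - d * c ^ 2 := by exact_mod_cast h3
  obtain ⟨m, rfl⟩ := h10
  have h6 : Algebra.norm ℤ α % 5 = a ^ 2 % 5 := by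
    rw [h5]
    push_cast
    have : a ^ 2 - 10 * (m : ℤ) * c ^ 2 = a ^ 2 + 5 * (-(2 * m * c ^ 2)) := by ring
    rw [this, Int.add_mul_emod_self_left]
  have h7 : a ^ 2 % 5 = 0 ∨ a ^ 2 % 5 = 1 ∨ a ^ 2 % 5 = 4 := by
    have h8 : a % 5 = 0 ∨ a % 5 = 1 ∨ a % 5 = 2 ∨ a % 5 = 3 ∨ a % 5 = 4 := by omega
    rcases h8 with h | h | h | h | h <;> simp [pow_two, Int.mul_emod, h]
  omega

/-- the norm of a product of the ideals -/
theorem prod_mod {B : ℝ} (L : Multiset (nonZeroDivisors (Ideal (𝓞 K))))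
    (h : ∀ 𝔭 ∈ L, Small P5 K B (𝔭 : Ideal (𝓞 K))) :
    Ideal.absNorm ((L.prod : nonZeroDivisors (Ideal (𝓞 K))) : Ideal (𝓞 K)) % 5 = 1 ∨
      Ideal.absNorm ((L.prod : nonZeroDivisors (Ideal (𝓞 K))) : Ideal (𝓞 K)) % 5 = 4 := by
  induction L using Multiset.induction_on with
  | empty =>
    left
    rw [Multiset.prod_zero]
    simp
  | cons 𝔭 L ih =>
    have h1 := ih fun q hq => h q (Multiset.mem_cons_of_mem hq)
    have h2 := (h 𝔭 (Multiset.mem_cons_self 𝔭 L)).2.2.1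
    have h3 : Ideal.absNorm (𝔭 : Ideal (𝓞 K)) % 5 = 1 ∨ Ideal.absNorm (𝔭 : Ideal (𝓞 K)) % 5 = 4 := h2
    rw [Multiset.prod_cons, Submonoid.coe_mul, map_mul]
    rw [Nat.mul_mod]
    rcases h1 with h1 | h1 <;> rcases h3 with h3 | h3 <;> rw [h1, h3]
    · exact Or.inl rfl
    · exact Or.inr rfl
    · exact Or.inr rfl
    · exact Or.inl rfl

theorem sharp (d : ℕ) (hd : Squarefree d) (h10 : 10 ∣ d) (K : Type) [Field K] [NumberField K]
    (h2 : Module.finrank ℚ K = 2) (hx : ∃ x : K, x ^ 2 = (d : K)) (B n : ℝ) :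
    ¬ Pool.Agent.N71.PS.GenBy P5 K B n := by
  intro hG
  obtain ⟨x, hx⟩ := hx
  have hint : IsIntegral ℤ x := by
    apply IsIntegral.of_pow (n := 2) two_pos
    rw [hx]
    have h3 := isIntegral_algebraMap (R := ℤ) (A := K) (x := (d : ℤ))
    simpa using h3
  obtain ⟨ω, hω⟩ : ∃ ω : 𝓞 K, algebraMap (𝓞 K) K ω = x := ⟨⟨x, hint⟩, rfl⟩
  have hω2 : ω * ω = (d : 𝓞 K) := by
    apply RingOfIntegers.coe_injective
    show algebraMap (𝓞 K) K (ω * ω) = algebraMap (𝓞 K) K (d : 𝓞 K)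
    rw [map_mul, hω, ← sq, hx, map_natCast]
  have hd0 : d ≠ 0 := hd.ne_zero
  obtain ⟨j, hj⟩ : ∃ j, d = 4 * j + 2 := by
    have h4 : ¬ 2 * 2 ∣ d := by
      intro h
      have := Nat.isUnit_iff.1 (hd 2 h)
      omega
    exact ⟨d / 4, by omega⟩
  have hω3 : ω * ω = 4 * (j : 𝓞 K) + 2 := by
    rw [hω2, hj]
    push_cast
    ring
  obtain ⟨P, hP⟩ : ∃ P : Ideal (𝓞 K), P = Ideal.span {(2 : 𝓞 K), ω} := ⟨_, rfl⟩
  have hPP : P * P = Ideal.span {(2 : 𝓞 K)} := by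
    rw [hP, Ideal.span_pair_mul_span_pair]
    apply le_antisymm
    · rw [Ideal.span_le]
      rintro y hy
      simp only [Set.mem_insert_iff, Set.mem_singleton_iff] at hy
      rw [SetLike.mem_coe, Ideal.mem_span_singleton]
      rcases hy with rfl | rfl | rfl | rfl
      · exact Dvd.intro _ rfl
      · exact Dvd.intro _ rfl
      · exact Dvd.intro_left _ rfl
      · rw [hω3]
        exact ⟨2 * (j : 𝓞 K) + 1, by ring⟩
    · rw [Ideal.span_singleton_le_iff_mem]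
      have e1 : ω * ω - (2 * 2) * (j : 𝓞 K) = 2 := by
        rw [hω3]
        ring
      have e2 : ω * ω - (2 * 2) * (j : 𝓞 K) ∈
          Ideal.span {(2 : 𝓞 K) * 2, 2 * ω, ω * 2, ω * ω} := by
        apply Ideal.sub_mem
        · exact Ideal.subset_span (by simp)
        · exact Ideal.mul_mem_right _ _ (Ideal.subset_span (by simp))
      rwa [e1] at e2
  have hrk : Module.finrank ℤ (𝓞 K) = 2 := by rw [NumberField.RingOfIntegers.rank, h2]
  have hnP : Ideal.absNorm P = 2 := by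
    have h3 : Ideal.absNorm P * Ideal.absNorm P = 4 := by
      rw [← map_mul, hPP]
      have := Ideal.absNorm_span_natCast (S := 𝓞 K) 2
      rw [hrk] at this
      simpa using this
    have h4 : ((Ideal.absNorm P : ℤ) - 2) * ((Ideal.absNorm P : ℤ) + 2) = 0 := by
      have : ((Ideal.absNorm P * Ideal.absNorm P : ℕ) : ℤ) = 4 := by rw [h3]; rfl
      push_cast at this
      linarith
    rcases mul_eq_zero.1 h4 with h5 | h5 <;> omega
  have hP0 : P ∈ nonZeroDivisors (Ideal (𝓞 K)) := by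
    apply mem_nonZeroDivisors_of_ne_zero
    rintro h3
    rw [h3] at hnP
    simp at hnP
  obtain ⟨Q, hQ⟩ : ∃ Q : nonZeroDivisors (Ideal (𝓞 K)), (Q : Ideal (𝓞 K)) = P := ⟨⟨P, hP0⟩, rfl⟩
  obtain ⟨L, hL, -, hprod⟩ := hG (ClassGroup.mk0 Q)
  have hLp : ClassGroup.mk0 L.prod = ClassGroup.mk0 Q := by
    rw [map_multiset_prod, hprod]
  have hpr : ∀ I : nonZeroDivisors (Ideal (𝓞 K)), ClassGroup.mk0 I = 1 ↔
      (I : Ideal (𝓞 K)).IsPrincipal := fun I => ClassGroup.mk0_eq_one_iff I.2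
  have h1 : ClassGroup.mk0 (Q * L.prod) = 1 := by
    rw [map_mul, hLp, ← map_mul, hpr, Submonoid.coe_mul, hQ, hPP]
    exact ⟨⟨2, rfl⟩⟩
  rw [hpr] at h1
  obtain ⟨⟨α, hα⟩⟩ := h1
  have h4 := congrArg Ideal.absNorm hα
  rw [Submonoid.coe_mul, map_mul, hQ, hnP, Ideal.submodule_span_eq,
    Ideal.absNorm_span_singleton] at h4
  have h5 := norm_mod hd h10 h2 hx α
  have h6 := prod_mod L hL
  rw [← h4] at h5
  omega

end Pool.Agent.N368.PS
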